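import Pool.Agent.P.MP_2e9c36_lc.GContain
import Pool.Agent.P.MP_2e9c36_lc.Lit

set_option autoImplicit false

open Pool.Agent.Lib.PosetForcing Pool.Agent.P.MP_2e9c36_lc

universe u

/-- From one measurable cardinal: for every unbounded `E ⊆ ω` without two consecutive elements,
the pattern, cofinality `ω` at `ℵ_n` for `n ∈ E`, cofinality `ω₁` otherwise, is mutually
stationary in an end extension of an elementary submodel containing `E`. -/
theorem Pool.Agent.Results.MP_2e9c36_lc.SparsePatterns.result :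
    ∀ (M : Type u) (mem : M → M → Prop), IsZFC mem → (∃ k, IsMeasurable mem k) →
      ∀ w E : M, IsOmega mem w → Sparse mem E w →
        ∃ (S : Set M) (N : Type u) (mem' : N → N → Prop) (j : M → N),
          w ∈ S ∧ E ∈ S ∧ IsElem mem S ∧ IsZFC mem' ∧ IsEndExt mem S mem' j ∧
          ∃ w1 a lam : N, IsOmega mem' (j w) ∧ IsSuccCard mem' w1 (j w) ∧ IsAleph mem' a (j w) ∧
            IsSupRange mem' lam a ∧ MutStat mem' (j w) w1 a lam (j E) :=
  fun _ mem h ⟨_, hk⟩ _ _ hw hE => Pool.Agent.P.MP_5f3b23_lc.Zf.sparse_pattern mem h hk hw hE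

/-- The question as posed: the case of the set of all `n ≡ 2 mod 3`. -/
theorem Pool.Agent.Results.MP_2e9c36_lc.SparsePatterns.posed :
    ∀ (M : Type u) (mem : M → M → Prop), IsZFC mem → (∃ k, IsMeasurable mem k) →
      ∃ (N : Type u) (mem' : N → N → Prop), IsZFC mem' ∧
        ∃ w w1 a lam E : N, IsOmega mem' w ∧ IsSuccCard mem' w1 w ∧ IsAleph mem' a w ∧
          IsSupRange mem' lam a ∧ IsTwoMod3 mem' E w ∧ MutStat mem' w w1 a lam E :=
  Pool.Agent.P.MP_5f3b23_lc.Zf.G.Pool.Agent.P.MP_5f3b23_lc.Zf.contains_mod3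
    Pool.Agent.Results.MP_2e9c36_lc.SparsePatterns.result

/-! ### Side theorems: the question in its own words

Provability and consistency (`Prov`, `Con`; soundness and completeness: `con_iff`), the axioms `ZFC`
(`models_zfc`), mutual stationarity with elementary substructures of structures in a countable
language (`MS`; truth tables are unique: `table_unique`), and the last theorem `literal`. -/

namespace Pool.Agent.Results.MP_2e9c36_lc.SparsePatterns

open Function

/-- the free variables of a formula -/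
def fv : Fml → Finset ℕ
  | .mem i j => {i, j}
  | .eq i j => {i, j}
  | .neg φ => fv φ
  | .and φ ψ => fv φ ∪ fv ψ
  | .all i φ => (fv φ).erase i

/-- simultaneous substitution of the variable `σ i` for each free variable `i`; bound variables
are renamed to fresh ones, so nothing is captured -/
def sb : Fml → (ℕ → ℕ) → Fml
  | .mem i j, σ => .mem (σ i) (σ j)
  | .eq i j, σ => .eq (σ i) (σ j)
  | .neg φ, σ => .neg (sb φ σ)
  | .and φ ψ, σ => .and (sb φ σ) (sb ψ σ)
  | .all i φ, σ => .all (((fv φ).erase i).sup σ + 1)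
      (sb φ (update σ i (((fv φ).erase i).sup σ + 1)))

/-- implication -/
def imp (φ ψ : Fml) : Fml := .neg (.and φ (.neg ψ))

/-- the truth value of a formula when atomic and quantified formulas get their values from `e` -/
def Ev (e : Fml → Prop) : Fml → Prop
  | .neg φ => ¬ Ev e φ
  | .and φ ψ => Ev e φ ∧ Ev e ψ
  | φ => e φ

/-- provability from the axioms `T` (read as universally closed) in a Hilbert calculus for
first-order logic with equality -/
inductive Prov (T : Set Fml) : Fml → Prop
  | ax {φ : Fml} : φ ∈ T → Prov T φ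
  | taut {φ : Fml} : (∀ e, Ev e φ) → Prov T φ
  | mp {φ ψ : Fml} : Prov T (imp φ ψ) → Prov T φ → Prov T ψ
  | subst {φ : Fml} (σ : ℕ → ℕ) : Prov T φ → Prov T (sb φ σ)
  | inst (i j : ℕ) (φ : Fml) : Prov T (imp (.all i φ) (sb φ (update id i j)))
  | gen {i j : ℕ} {φ ψ : Fml} : j ∉ fv ψ → j ∉ fv (.all i φ) →
      Prov T (imp ψ (sb φ (update id i j))) → Prov T (imp ψ (.all i φ))
  | refl (i : ℕ) : Prov T (.eq i i)
  | eqm (i j k l : ℕ) : Prov T (imp (.eq i j) (imp (.eq k l) (imp (.mem i k) (.mem j l))))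
  | eqe (i j k l : ℕ) : Prov T (imp (.eq i j) (imp (.eq k l) (imp (.eq i k) (.eq j l))))

/-- `T` is consistent: it proves no formula together with its negation -/
def Con (T : Set Fml) : Prop := ¬ ∃ φ, Prov T φ ∧ Prov T (.neg φ)

/-- `(M, mem)` satisfies the universal closures of the formulas of `T` -/
def Models {M : Type} (mem : M → M → Prop) (T : Set Fml) : Prop :=
  ∀ φ ∈ T, ∀ v, Sat mem φ v

/-- disjunction -/
def orF (φ ψ : Fml) : Fml := .neg (.and (.neg φ) (.neg ψ))

/-- equivalence -/
def iffF (φ ψ : Fml) : Fml := .and (imp φ ψ) (imp ψ φ)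

/-- existential quantifier -/
def exF (i : ℕ) (φ : Fml) : Fml := .neg (.all i (.neg φ))

/-- the axioms of ZFC (free variables are read universally) -/
inductive ZFC : Fml → Prop
  | ext : ZFC (imp (.all 2 (iffF (.mem 2 0) (.mem 2 1))) (.eq 0 1))
  | found : ZFC (imp (exF 1 (.mem 1 0))
      (exF 1 (.and (.mem 1 0) (.all 2 (imp (.mem 2 1) (.neg (.mem 2 0)))))))
  | pair : ZFC (exF 2 (.all 3 (iffF (.mem 3 2) (orF (.eq 3 0) (.eq 3 1)))))
  | union : ZFC (exF 1 (.all 2 (iffF (.mem 2 1) (exF 3 (.and (.mem 3 0) (.mem 2 3))))))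
  | power : ZFC (exF 1 (.all 2 (iffF (.mem 2 1) (.all 3 (imp (.mem 3 2) (.mem 3 0))))))
  | inf : ZFC (exF 0 (.and (exF 1 (.and (.mem 1 0) (.all 2 (.neg (.mem 2 1)))))
      (.all 1 (imp (.mem 1 0) (exF 2 (.and (.mem 2 0)
        (.all 3 (iffF (.mem 3 2) (orF (.mem 3 1) (.eq 3 1))))))))))
  | sep (φ : Fml) (a b : ℕ) : a ≠ 0 → b ≠ 0 → b ≠ a → b ∉ fv φ →
      ZFC (exF b (.all 0 (iffF (.mem 0 b) (.and (.mem 0 a) φ))))
  | repl (φ : Fml) (a b : ℕ) : 1 < a → 1 < b → b ≠ a → b ∉ fv φ →
      ZFC (imp (.all 0 (imp (.mem 0 a) (exF b (.all 1 (iffF φ (.eq 1 b))))))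
        (exF b (.all 1 (iffF (.mem 1 b) (exF 0 (.and (.mem 0 a) φ))))))
  | choice : ZFC (imp (.all 1 (imp (.mem 1 0) (exF 2 (.mem 2 1))))
      (imp (.all 1 (.all 2 (.all 3 (imp (.mem 1 0) (imp (.mem 2 0) (imp (.mem 3 1)
        (imp (.mem 3 2) (.eq 1 2))))))))
      (exF 1 (.all 2 (imp (.mem 2 0) (exF 3 (.all 4
        (iffF (.and (.mem 4 2) (.mem 4 1)) (.eq 4 3)))))))))

/-- in models of ZFC the formula `φ` says `P` -/
def Says (φ : Fml) (P : ∀ {M : Type}, (M → M → Prop) → Prop) : Prop :=
  ∀ (M : Type) (mem : M → M → Prop), IsZFC mem → ∀ v, Sat mem φ v ↔ P mem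

section
variable {M : Type} (mem : M → M → Prop)

/-- `x` is the numeral `k` -/
def IsNum : ℕ → M → Prop
  | 0, x => ∀ z, ¬ mem z x
  | k + 1, x => ∃ y, IsNum k y ∧ IsSucc mem x y

/-- `G(n) = (k, (a, b))`: the expression number `n` has kind `k` and constituents `a`, `b` -/
def Node (G n : M) (k : ℕ) (a b : M) : Prop :=
  ∃ c p q, IsNum mem k c ∧ IsPair mem p a b ∧ IsPair mem q c p ∧ App mem G n q

/-- `G` numbers terms and formulas of the language with function symbols `f_i` and relation
symbols `r_i`, `i ∈ ω`: kind 0 the variable `x_a`; kinds 1, 2 the symbol `f_a`, `r_a` applied to the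
terms listed by `b`; kind 3 the equation of the terms `a`, `b`; kind 4 the negation of `b`; kind 5
the conjunction of `a`, `b`; kind 6 the formula `∃ x_a b`. Subexpressions have smaller numbers. -/
def Syn (G : M) : Prop := ∀ n a b,
  (Node mem G n 1 a b ∨ Node mem G n 2 a b → ∀ j m, App mem b j m → mem m n) ∧
  (Node mem G n 3 a b ∨ Node mem G n 5 a b → mem a n ∧ mem b n) ∧
  (Node mem G n 4 a b ∨ Node mem G n 6 a b → mem b n)

/-- in the table `V` the term number `n` has the value `y` under the assignment `s` -/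
def Val (V n s y : M) : Prop := ∃ p, IsPair mem p s y ∧ App mem V n p

/-- in the table `T` the formula number `n` is true under the assignment `s` -/
def Tru (T n s : M) : Prop := App mem T n s

/-- `e` lists the values under `s` of the terms listed by `u` -/
def Args (V u s e : M) : Prop :=
  (∀ j y, App mem e j y ↔ ∃ m, App mem u j m ∧ Val mem V m s y) ∧
    ∀ j m, App mem u j m → ∃ y, App mem e j y

/-- `s'` is `s` with the value at `k` set to `y` -/
def Upd (s' s k y : M) : Prop :=
  ∀ j z, App mem s' j z ↔ (j = k ∧ z = y) ∨ (¬ j = k ∧ App mem s j z)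

/-- Tarski's clause for the value of a term in the structure on `A` with functions `F` -/
def ValC (G F A w V n s y : M) : Prop := ∃ a b, (Node mem G n 0 a b ∧ App mem s a y) ∨
  (Node mem G n 1 a b ∧ ∃ e g, IsSeq mem e A w ∧ Args mem V b s e ∧ App mem F a g ∧ App mem g e y)

/-- Tarski's clause for the truth of a formula in the structure on `A` with relations `R` -/
def TruC (G R A w V T n s : M) : Prop := ∃ a b,
  (Node mem G n 2 a b ∧ ∃ e r, IsSeq mem e A w ∧ Args mem V b s e ∧ App mem R a r ∧ mem e r) ∨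
  (Node mem G n 3 a b ∧ ∃ y, Val mem V a s y ∧ Val mem V b s y) ∨
  (Node mem G n 4 a b ∧ ¬ Tru mem T b s) ∨
  (Node mem G n 5 a b ∧ Tru mem T a s ∧ Tru mem T b s) ∨
  (Node mem G n 6 a b ∧ ∃ y s', mem y A ∧ IsSeq mem s' A w ∧ Upd mem s' s a y ∧ Tru mem T b s')

/-- `V` and `T` are the value table and the truth table of the structure `(A, R, F)`; assignments
are finite sequences in `A` -/
def Table (G R F A w V T : M) : Prop := ∀ n s, mem n w → IsSeq mem s A w →
  (∀ y, Val mem V n s y ↔ ValC mem G F A w V n s y) ∧ (Tru mem T n s ↔ TruC mem G R A w V T n s)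

/-- `N` is an elementary substructure of `(A, R, F)`: closed under the functions, and the truth
tables of the two structures agree on assignments in `N` -/
def ElemSub (G R F N A w : M) : Prop := IsSub mem N A ∧ Closed mem N F w ∧
  ∃ V T V' T', Table mem G R F A w V T ∧ Table mem G R F N w V' T' ∧
    ∀ n s, mem n w → IsSeq mem s N w → (Tru mem T' n s ↔ Tru mem T n s)

/-- the sequence of the problem is mutually stationary, in the words of the problem: every structure
on `ℵ_ω` in a countable language has an elementary substructure `N` such that, for all `n ≥ 2` with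
`ℵ_n ∈ N`, `sup (N ∩ ℵ_n)` is below `ℵ_n` of cofinality `ω` if `n ≡ 2 mod 3` and `ω₁` otherwise -/
def MS : Prop := ∃ w w1 a lam E, IsOmega mem w ∧ IsSuccCard mem w1 w ∧ IsAleph mem a w ∧
  IsSupRange mem lam a ∧ IsTwoMod3 mem E w ∧
  ∀ G R F, Syn mem G → IsAlg mem F lam w → ∃ N, ElemSub mem G R F N lam w ∧
    ∀ n x, App mem a n x → mem w1 x → mem x N → ∃ d, IsSupBelow mem d N x ∧ mem d x ∧
      (mem n E → IsCof mem d w) ∧ (¬ mem n E → IsCof mem d w1)

end

theorem fv_eq (φ : Fml) : fv φ = Lit.fv φ := by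
  induction φ <;> simp only [fv, Lit.fv, *]

theorem sb_eq (φ : Fml) : ∀ σ, sb φ σ = Lit.sb φ σ := by
  induction φ <;> intro σ <;> simp only [sb, Lit.sb, fv_eq, *]

theorem ev_eq (e : Fml → Prop) (φ : Fml) : Ev e φ ↔ Lit.Ev e φ := by
  induction φ <;> simp only [Ev, Lit.Ev, *]

theorem prov_eq (T : Set Fml) (φ : Fml) : Prov T φ ↔ Lit.Prov T φ := by
  constructor <;> intro h
  · induction h with
    | ax h => exact .ax h
    | taut h => exact .taut fun e => (ev_eq e _).1 (h e)
    | mp _ _ a b => exact .mp a b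
    | subst σ _ a => exact sb_eq _ σ ▸ .subst σ a
    | inst i j φ => exact sb_eq φ _ ▸ .inst i j φ
    | gen a b _ c => exact .gen (fv_eq _ ▸ a) (fv_eq _ ▸ b) (sb_eq _ _ ▸ c)
    | refl i => exact .refl i
    | eqm i j k l => exact .eqm i j k l
    | eqe i j k l => exact .eqe i j k l
  · induction h with
    | ax h => exact .ax h
    | taut h => exact .taut fun e => (ev_eq e _).2 (h e)
    | mp _ _ a b => exact .mp a b
    | subst σ _ a => exact sb_eq _ σ ▸ .subst σ a
    | inst i j φ => exact sb_eq φ _ ▸ .inst i j φ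
    | gen a b _ c => exact .gen (fv_eq _ ▸ a) (fv_eq _ ▸ b) ((sb_eq _ _).symm ▸ c)
    | refl i => exact .refl i
    | eqm i j k l => exact .eqm i j k l
    | eqe i j k l => exact .eqe i j k l

theorem con_eq (T : Set Fml) : Con T ↔ Lit.Con T := by simp only [Con, Lit.Con, prov_eq]

theorem zfc_eq : {φ | ZFC φ} = {φ | Lit.ZFC φ} := by
  refine Set.ext fun φ => ⟨fun h => ?_, fun h => ?_⟩
  · cases h with
    | sep φ a b p q r s => exact .sep φ a b p q r (fv_eq φ ▸ s)
    | repl φ a b p q r s => exact .repl φ a b p q r (fv_eq φ ▸ s)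
    | _ => constructor
  · cases h with
    | sep φ a b p q r s => exact .sep φ a b p q r (fv_eq φ ▸ s)
    | repl φ a b p q r s => exact .repl φ a b p q r (fv_eq φ ▸ s)
    | _ => constructor

/-- soundness and completeness of the calculus: consistent means having a model -/
theorem con_iff (T : Set Fml) :
    Con T ↔ ∃ (M : Type) (mem : M → M → Prop), Nonempty M ∧ Models mem T :=
  (con_eq T).trans (Lit.con_iff T)

/-- the models of the axioms are the models of ZFC in the sense of `result` -/
theorem models_zfc {M : Type} [Nonempty M] (mem : M → M → Prop) :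
    Models mem {φ | ZFC φ} ↔ IsZFC mem := zfc_eq ▸ Lit.models_zfc

/-- in a model of ZFC the value table and the truth table of a structure are unique -/
theorem table_unique {M : Type} (mem : M → M → Prop) (h : IsZFC mem) (G R F A w V T V' T' n s : M)
    (hw : IsOmega mem w) (hG : Syn mem G) (h1 : Table mem G R F A w V T)
    (h2 : Table mem G R F A w V' T') (hn : mem n w) (hs : IsSeq mem s A w) :
    (∀ y, Val mem V n s y ↔ Val mem V' n s y) ∧ (Tru mem T n s ↔ Tru mem T' n s) :=
  Lit.table_unique' h hw hG h1 h2 hn hs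

/-- The question in its own words, `m = 1`: if ZFC plus a measurable cardinal is consistent, then
so is ZFC plus the mutual stationarity of the sequence (and both statements are expressible). -/
theorem literal :
    (∃ φ, Says φ fun mem => ∃ k, IsMeasurable mem k) ∧ (∃ ψ, Says ψ MS) ∧
      ∀ φ ψ, (Says φ fun mem => ∃ k, IsMeasurable mem k) → Says ψ MS →
        Con (insert φ {χ | ZFC χ}) → Con (insert ψ {χ | ZFC χ}) := by
  simp only [con_eq, zfc_eq]
  exact Lit.literal posed

end Pool.Agent.Results.MP_2e9c36_lc.SparsePatterns
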